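import Mathlib

set_option autoImplicit false

/-! The finite inequality behind the lower bound for pairwise couplings on a two-level
ultrametric space with eight clusters of four leaves and one extra point. -/

namespace Pool.Agent.V11322.PC

open Finset

/-- The leaves: eight clusters of four leaves. -/
abbrev L := Fin 8 × Fin 4

/-- The cluster of a value. -/
def cl (a : Option L) : Option (Fin 8) := a.map Prod.fst

/-- The weights of the pairs. -/
def w (x y : L) : ℤ := if x.1 = y.1 then 28 else 3

/-- one when the clusters of the values differ -/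
def dc (g : L → Option L) (x y : L) : ℤ := if cl (g x) = cl (g y) then 0 else 1

/-- one when the values differ -/
def dl (g : L → Option L) (x y : L) : ℤ := if g x = g y then 0 else 1

/-- total cost -/
def T (g : L → Option L) : ℤ := ∑ x, ∑ y, w x y * (dc g x y + dl g x y)

/-- number of leaves whose value is in their own cluster -/
def n1 (g : L → Option L) : ℤ := ∑ x : L, if cl (g x) = some x.1 then 1 else 0

/-- number of leaves whose value is the extra point -/
def nz (g : L → Option L) : ℤ := ∑ x : L, if g x = none then 1 else 0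

/-- the weighted cut of an indicator function -/
def W (i : L → ℤ) : ℤ := ∑ x, ∑ y, w x y * (i x * (1 - i y) + (1 - i x) * i y)

lemma W_eq (i : L → ℤ) :
    W i = 6 * (∑ x, i x) * (32 - ∑ x, i x)
      + 50 * ∑ j : Fin 8, (∑ l : Fin 4, i (j, l)) * (4 - ∑ l : Fin 4, i (j, l)) := by
  have h1 : ∀ x y : L, w x y * (i x * (1 - i y) + (1 - i x) * i y)
      = 3 * (i x + i y - 2 * (i x * i y))
        + (if x.1 = y.1 then 25 * (i x + i y - 2 * (i x * i y)) else 0) := by
    intro x y
    unfold w
    split_ifs <;> ring
  have hs : ∑ x : L, i x = ∑ j : Fin 8, ∑ l : Fin 4, i (j, l) := Fintype.sum_prod_type _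
  unfold W
  simp_rw [h1, sum_add_distrib]
  have h2 : ∑ x : L, ∑ y : L, 3 * (i x + i y - 2 * (i x * i y))
      = 6 * (∑ x, i x) * (32 - ∑ x, i x) := by
    simp_rw [← mul_sum, sum_sub_distrib, sum_add_distrib, ← mul_sum]
    simp only [sum_const, card_univ, Fintype.card_prod, Fintype.card_fin, nsmul_eq_mul,
      ← sum_mul, ← mul_sum]
    push_cast
    ring
  have h3 : ∑ x : L, ∑ y : L, (if x.1 = y.1 then 25 * (i x + i y - 2 * (i x * i y)) else 0)
      = 50 * ∑ j : Fin 8, (∑ l : Fin 4, i (j, l)) * (4 - ∑ l : Fin 4, i (j, l)) := by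
    simp_rw [Fintype.sum_prod_type]
    rw [mul_sum]
    refine sum_congr rfl fun j _ => ?_
    have h4 : ∀ l : Fin 4, (∑ j' : Fin 8, ∑ l' : Fin 4,
        if j = j' then 25 * (i (j, l) + i (j', l') - 2 * (i (j, l) * i (j', l'))) else 0)
        = ∑ l' : Fin 4, 25 * (i (j, l) + i (j, l') - 2 * (i (j, l) * i (j, l'))) := by
      intro l
      rw [Finset.sum_eq_single j]
      · simp
      · intro b _ hb
        simp [Ne.symm hb]
      · simp
    simp_rw [h4]
    simp only [Fin.sum_univ_four]
    ring
  rw [h2, h3]

lemma sj_bd {i : L → ℤ} (hi : ∀ x, 0 ≤ i x ∧ i x ≤ 1) (j : Fin 8) :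
    0 ≤ ∑ l : Fin 4, i (j, l) ∧ ∑ l : Fin 4, i (j, l) ≤ 4 := by
  constructor
  · exact sum_nonneg fun l _ => (hi _).1
  · calc ∑ l : Fin 4, i (j, l) ≤ ∑ l : Fin 4, 1 := sum_le_sum fun l _ => (hi _).2
      _ = 4 := by simp

lemma s_bd {i : L → ℤ} (hi : ∀ x, 0 ≤ i x ∧ i x ≤ 1) :
    0 ≤ ∑ x, i x ∧ ∑ x, i x ≤ 32 := by
  constructor
  · exact sum_nonneg fun l _ => (hi _).1
  · calc ∑ x, i x ≤ ∑ x : L, 1 := sum_le_sum fun l _ => (hi _).2
      _ = 32 := by simp

lemma W_ge (i : L → ℤ) (hi : ∀ x, 0 ≤ i x ∧ i x ≤ 1) (j : Fin 8) :
    6 * (∑ x, i x) * (32 - ∑ x, i x)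
      + 50 * ((∑ l : Fin 4, i (j, l)) * (4 - ∑ l : Fin 4, i (j, l))) ≤ W i := by
  rw [W_eq]
  have : (∑ l : Fin 4, i (j, l)) * (4 - ∑ l : Fin 4, i (j, l))
      ≤ ∑ j : Fin 8, (∑ l : Fin 4, i (j, l)) * (4 - ∑ l : Fin 4, i (j, l)) :=
    single_le_sum (f := fun j => (∑ l : Fin 4, i (j, l)) * (4 - ∑ l : Fin 4, i (j, l)))
      (fun j _ => mul_nonneg (sj_bd hi j).1 (sub_nonneg.2 (sj_bd hi j).2)) (mem_univ j)
  linarith

/-- The minimal cut. -/
lemma cut (i : L → ℤ) (hi : ∀ x, 0 ≤ i x ∧ i x ≤ 1) (h0 : 1 ≤ ∑ x, i x) (h1 : ∑ x, i x ≤ 31) :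
    336 ≤ W i := by
  have hsum : ∑ x : L, i x = ∑ j : Fin 8, ∑ l : Fin 4, i (j, l) := Fintype.sum_prod_type _
  rcases (by omega : ∑ x, i x = 1 ∨ ∑ x, i x = 31 ∨ (2 ≤ ∑ x, i x ∧ ∑ x, i x ≤ 30)) with h | h | h
  · rw [W_eq, h]
    have h2 : ∀ j : Fin 8, (∑ l : Fin 4, i (j, l)) * (4 - ∑ l : Fin 4, i (j, l))
        = 3 * ∑ l : Fin 4, i (j, l) := by
      intro j
      have h3 : ∑ l : Fin 4, i (j, l) ≤ 1 := by
        rw [← h, hsum]
        exact single_le_sum (f := fun j => ∑ l : Fin 4, i (j, l))
          (fun j _ => (sj_bd hi j).1) (mem_univ j)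
      have h4 := (sj_bd hi j).1
      rcases (by omega : ∑ l : Fin 4, i (j, l) = 0 ∨ ∑ l : Fin 4, i (j, l) = 1) with h5 | h5 <;>
        rw [h5] <;> norm_num
    simp_rw [h2]
    rw [← mul_sum, ← hsum, h]
    norm_num
  · rw [W_eq, h]
    have h2 : ∀ j : Fin 8, (∑ l : Fin 4, i (j, l)) * (4 - ∑ l : Fin 4, i (j, l))
        = 3 * (4 - ∑ l : Fin 4, i (j, l)) := by
      intro j
      have h3 : 4 - ∑ l : Fin 4, i (j, l) ≤ 1 := by
        have h6 : ∑ j : Fin 8, (4 - ∑ l : Fin 4, i (j, l)) = 1 := by
          rw [sum_sub_distrib, ← hsum, h]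
          simp
        rw [← h6]
        exact single_le_sum (f := fun j => 4 - ∑ l : Fin 4, i (j, l))
          (fun j _ => sub_nonneg.2 (sj_bd hi j).2) (mem_univ j)
      have h4 := (sj_bd hi j).2
      rcases (by omega : ∑ l : Fin 4, i (j, l) = 3 ∨ ∑ l : Fin 4, i (j, l) = 4) with h5 | h5 <;>
        rw [h5] <;> norm_num
    simp_rw [h2]
    rw [← mul_sum, sum_sub_distrib, ← hsum, h]
    simp
  · have h2 := W_ge i hi 0
    have h3 := mul_nonneg (sj_bd hi 0).1 (sub_nonneg.2 (sj_bd hi 0).2)
    nlinarith [h.1, h.2]

lemma w_nonneg (x y : L) : 0 ≤ w x y := by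
  unfold w
  split_ifs <;> norm_num

lemma n1_nonneg (g : L → Option L) : 0 ≤ n1 g := by
  unfold n1
  exact sum_nonneg fun x _ => by split_ifs <;> norm_num

lemma nz_nonneg (g : L → Option L) : 0 ≤ nz g := by
  unfold nz
  exact sum_nonneg fun x _ => by split_ifs <;> norm_num

theorem key (g : L → Option L) (hg : ∀ x, g x ≠ some x) :
    2 * (672 - 126 * n1 g - 21 * nz g) ≤ T g := by
  classical
  by_cases hbig : ∃ v : Option (Fin 8), 16 ≤ ∑ x : L, (if cl (g x) = v then (1 : ℤ) else 0)
  · obtain ⟨v, hv⟩ := hbig
    set i : L → ℤ := fun x => if cl (g x) = v then 0 else 1 with hi_def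
    have hi : ∀ x, 0 ≤ i x ∧ i x ≤ 1 := by
      intro x
      simp only [hi_def]
      split_ifs <;> norm_num
    have hsi : ∑ x, i x ≤ 16 := by
      have : ∑ x, i x + ∑ x : L, (if cl (g x) = v then (1 : ℤ) else 0) = 32 := by
        rw [← sum_add_distrib]
        calc ∑ x : L, (i x + if cl (g x) = v then (1 : ℤ) else 0) = ∑ x : L, 1 := by
              refine sum_congr rfl fun x _ => ?_
              simp only [hi_def]
              split_ifs <;> norm_num
          _ = 32 := by simp
      linarith
    have hT : 2 * W i ≤ T g := by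
      unfold W T
      rw [mul_sum]
      refine sum_le_sum fun x _ => ?_
      rw [mul_sum]
      refine sum_le_sum fun y _ => ?_
      have h1 : i x * (1 - i y) + (1 - i x) * i y ≤ dc g x y := by
        simp only [hi_def, dc]
        by_cases h1 : cl (g x) = v <;> by_cases h2 : cl (g y) = v <;>
          by_cases h3 : cl (g x) = cl (g y) <;> simp_all
      have h2 : dc g x y ≤ dl g x y := by
        unfold dc dl
        by_cases h3 : g x = g y
        · simp [h3]
        · simp only [h3, if_false]
          split_ifs <;> norm_num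
      have h3 := w_nonneg x y
      nlinarith
    have hs0 := (s_bd hi).1
    rcases v with _ | j
    · -- the majority value is the extra point
      have hnz : nz g = 32 - ∑ x, i x := by
        have : ∑ x, i x + nz g = 32 := by
          unfold nz
          rw [← sum_add_distrib]
          calc ∑ x : L, (i x + if g x = none then (1 : ℤ) else 0) = ∑ x : L, 1 := by
                refine sum_congr rfl fun x _ => ?_
                simp only [hi_def, cl]
                rcases g x with _ | a <;> simp
            _ = 32 := by simp
        linarith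
      have h1 := W_ge i hi 0
      have h3 := mul_nonneg (sj_bd hi 0).1 (sub_nonneg.2 (sj_bd hi 0).2)
      have h4 := n1_nonneg g
      nlinarith [mul_nonneg hs0 (sub_nonneg.2 hsi)]
    · have h1 := W_ge i hi j
      have hk := sj_bd hi j
      have hks : ∑ l : Fin 4, i (j, l) ≤ ∑ x, i x := by
        rw [Fintype.sum_prod_type]
        exact single_le_sum (f := fun j => ∑ l : Fin 4, i (j, l))
          (fun j _ => (sj_bd hi j).1) (mem_univ j)
      have hn1 : 4 - ∑ l : Fin 4, i (j, l) ≤ n1 g := by
        unfold n1
        rw [Fintype.sum_prod_type]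
        have h5 : 4 - ∑ l : Fin 4, i (j, l)
            = ∑ l : Fin 4, (if cl (g (j, l)) = some (j, l).1 then (1 : ℤ) else 0) := by
          have : ∑ l : Fin 4, i (j, l)
              + ∑ l : Fin 4, (if cl (g (j, l)) = some (j, l).1 then (1 : ℤ) else 0) = 4 := by
            rw [← sum_add_distrib]
            calc ∑ l : Fin 4, (i (j, l)
                  + if cl (g (j, l)) = some (j, l).1 then (1 : ℤ) else 0) = ∑ l : Fin 4, 1 := by
                  refine sum_congr rfl fun l _ => ?_
                  simp only [hi_def]
                  split_ifs <;> norm_num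
              _ = 4 := by simp
          linarith
        rw [h5]
        exact single_le_sum
          (f := fun j => ∑ l : Fin 4, (if cl (g (j, l)) = some (j, l).1 then (1 : ℤ) else 0))
          (fun j _ => sum_nonneg fun l _ => by split_ifs <;> norm_num) (mem_univ j)
      have hz := nz_nonneg g
      generalize hkd : ∑ l : Fin 4, i (j, l) = k at *
      generalize hsd : ∑ x, i x = s at *
      rcases (by omega : k = 0 ∨ 1 ≤ k) with hk0 | hk1
      · -- all leaves of the cluster stay in the cluster
        subst hk0
        have hcut : 336 ≤ T g := by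
          set x0 : L := (0, 0)
          set a : L → ℤ := fun x => if g x = g x0 then 1 else 0 with ha_def
          have ha : ∀ x, 0 ≤ a x ∧ a x ≤ 1 := by
            intro x
            simp only [ha_def]
            split_ifs <;> norm_num
          have ha0 : 1 ≤ ∑ x, a x := by
            have : a x0 ≤ ∑ x, a x := single_le_sum (fun x _ => (ha x).1) (mem_univ x0)
            simpa [ha_def] using this
          have ha1 : ∑ x, a x ≤ 31 := by
            by_contra hcon
            have hall : ∀ x, g x = g x0 := by
              intro x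
              by_contra hne
              have h6 : ∑ x, a x ≤ ∑ y : L, (if y = x then (0 : ℤ) else 1) := by
                refine sum_le_sum fun y _ => ?_
                split_ifs with hy
                · subst hy
                  simp [ha_def, hne]
                · exact (ha y).2
              have h7 : ∑ y : L, (if y = x then (0 : ℤ) else 1) = 31 := by
                have h8 : ∑ y : L, (if y = x then (0 : ℤ) else 1)
                    + ∑ y : L, (if y = x then (1 : ℤ) else 0) = 32 := by
                  rw [← sum_add_distrib]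
                  calc ∑ y : L, ((if y = x then (0 : ℤ) else 1) + if y = x then (1 : ℤ) else 0)
                        = ∑ y : L, 1 := by
                        refine sum_congr rfl fun y _ => ?_
                        split_ifs <;> norm_num
                    _ = 32 := by simp
                rw [sum_ite_eq' univ x] at h8
                simp at h8
                linarith
              omega
            rcases hx0 : g x0 with _ | b
            · -- constant extra point: contradicts the cluster condition
              have h9 : (if cl (g (j, 0)) = some j then (0 : ℤ) else 1) = 1 := by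
                rw [hall (j, 0), hx0]
                simp [cl]
              have h10 : i (j, 0) ≤ 0 := by
                rw [← hkd]
                exact single_le_sum (f := fun l => i (j, l)) (fun l _ => (hi _).1) (mem_univ 0)
              simp only [hi_def] at h10
              rw [h9] at h10
              norm_num at h10
            · exact hg b (by rw [hall b, hx0])
          have h6 := cut a ha ha0 ha1
          refine h6.trans ?_
          unfold W T
          refine sum_le_sum fun x _ => sum_le_sum fun y _ => ?_
          have h7 : a x * (1 - a y) + (1 - a x) * a y ≤ dl g x y := by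
            simp only [ha_def, dl]
            by_cases h1 : g x = g x0 <;> by_cases h2 : g y = g x0 <;>
              by_cases h3 : g x = g y <;> simp_all
          have h8 : 0 ≤ dc g x y := by
            unfold dc
            split_ifs <;> norm_num
          have h9 := w_nonneg x y
          nlinarith
        linarith
      · have h2 : k * (32 - k) ≤ s * (32 - s) := by nlinarith
        have hk4 : k ≤ 4 := hk.2
        rcases (by omega : k = 1 ∨ k = 2 ∨ k = 3 ∨ k = 4) with h | h | h | h <;> subst h <;>
          nlinarith
  · push Not at hbig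
    have h1 : ∀ x : L, 17 ≤ ∑ y, dc g x y := by
      intro x
      have h2 := hbig (cl (g x))
      have h3 : ∑ y, dc g x y + ∑ y : L, (if cl (g y) = cl (g x) then (1 : ℤ) else 0) = 32 := by
        rw [← sum_add_distrib]
        calc ∑ y : L, (dc g x y + if cl (g y) = cl (g x) then (1 : ℤ) else 0)
              = ∑ y : L, 1 := by
              refine sum_congr rfl fun y _ => ?_
              unfold dc
              by_cases h : cl (g x) = cl (g y)
              · simp [h]
              · rw [if_neg h, if_neg (Ne.symm h)]
                norm_num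
          _ = 32 := by simp
      omega
    have h2 : ∑ x : L, ∑ y : L, 6 * dc g x y ≤ T g := by
      unfold T
      refine sum_le_sum fun x _ => sum_le_sum fun y _ => ?_
      have h3 : 3 ≤ w x y := by
        unfold w
        split_ifs <;> norm_num
      have h4 : 0 ≤ dc g x y := by
        unfold dc
        split_ifs <;> norm_num
      have h5 : dc g x y ≤ dl g x y := by
        unfold dc dl
        by_cases h3 : g x = g y
        · simp [h3]
        · simp only [h3, if_false]
          split_ifs <;> norm_num
      nlinarith
    have h3 : (3264 : ℤ) ≤ ∑ x : L, ∑ y : L, 6 * dc g x y := by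
      calc (3264 : ℤ) = ∑ x : L, 6 * 17 := by simp
        _ ≤ _ := by
          refine sum_le_sum fun x _ => ?_
          rw [← mul_sum]
          linarith [h1 x]
    have h4 := n1_nonneg g
    have h5 := nz_nonneg g
    linarith

end Pool.Agent.V11322.PC
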