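import Mathlib
import Pool.Agent.V11322.PC.Comb

set_option autoImplicit false

/-! Embedding the two-level ultrametric space in the line with the cost `|x - y| ^ q`. -/

namespace Pool.Agent.V11322.PC

open Finset

/-- cluster index -/
def idx (a : Option L) : ℕ := match a with
  | none => 8
  | some z => z.1

/-- offset in the cluster -/
def off (a : Option L) : ℕ := match a with
  | none => 0
  | some z => z.2

/-- the distance between neighbouring clusters -/
noncomputable def RR (q : ℝ) : ℝ := 2 ^ (1 / q) + 3

/-- the position of a value on the line -/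
noncomputable def pos (q : ℝ) (a : Option L) : ℝ := idx a * RR q + off a

lemma idx_eq {a b : Option L} (h : idx a = idx b) : cl a = cl b := by
  rcases a with _ | x <;> rcases b with _ | y
  · rfl
  · simp only [idx] at h
    have := y.1.2
    omega
  · simp only [idx] at h
    have := x.1.2
    omega
  · simp only [idx] at h
    simp only [cl, Option.map_some, Option.some.injEq]
    exact Fin.ext h

lemma off_eq {a b : Option L} (h : cl a = cl b) (h' : off a = off b) : a = b := by
  rcases a with _ | x <;> rcases b with _ | y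
  · rfl
  · simp [cl] at h
  · simp [cl] at h
  · simp only [cl, Option.map_some, Option.some.injEq] at h
    simp only [off] at h'
    rw [Option.some.injEq]
    exact Prod.ext h (Fin.ext h')

lemma cl_idx {a b : Option L} (h : cl a = cl b) : idx a = idx b := by
  rcases a with _ | x <;> rcases b with _ | y
  · rfl
  · simp [cl] at h
  · simp [cl] at h
  · simp only [cl, Option.map_some, Option.some.injEq] at h
    simp only [idx, h]

lemma off_le (a : Option L) : off a ≤ 3 := by
  rcases a with _ | x
  · simp [off]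
  · simp only [off]
    have := x.2.2
    omega

lemma abs_nat_sub_le {m n : ℕ} (hm : m ≤ 3) (hn : n ≤ 3) : |(m : ℝ) - n| ≤ 3 := by
  have h1 : (m : ℝ) ≤ 3 := by exact_mod_cast hm
  have h2 : (n : ℝ) ≤ 3 := by exact_mod_cast hn
  have h3 : (0 : ℝ) ≤ m := Nat.cast_nonneg _
  have h4 : (0 : ℝ) ≤ n := Nat.cast_nonneg _
  rw [abs_le]
  constructor <;> linarith

lemma one_le_abs_nat {m n : ℕ} (h : m ≠ n) : 1 ≤ |(m : ℝ) - n| := by
  have h1 : (1 : ℤ) ≤ |(m : ℤ) - n| := Int.one_le_abs (by omega)
  have h2 : ((1 : ℤ) : ℝ) ≤ ((|(m : ℤ) - n| : ℤ) : ℝ) := by exact_mod_cast h1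
  push_cast at h2
  exact h2

lemma two_pow {q : ℝ} (hq : 0 < q) : ((2 : ℝ) ^ (1 / q)) ^ q = 2 := by
  rw [← Real.rpow_mul (by norm_num), one_div_mul_cancel hq.ne', Real.rpow_one]

/-- The lower bound for the costs. -/
lemma pos_lower {q : ℝ} (hq : 0 < q) (g : L → Option L) (x y : L) :
    ((dc g x y + dl g x y : ℤ) : ℝ) ≤ |pos q (g x) - pos q (g y)| ^ q := by
  have hR : (0 : ℝ) < 2 ^ (1 / q) := by positivity
  unfold dc dl
  by_cases h1 : g x = g y
  · rw [if_pos h1, if_pos (by rw [h1])]
    push_cast
    positivity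
  · rw [if_neg h1]
    by_cases h2 : cl (g x) = cl (g y)
    · rw [if_pos h2]
      have h3 : off (g x) ≠ off (g y) := fun h => h1 (off_eq h2 h)
      have h4 : pos q (g x) - pos q (g y) = (off (g x) : ℝ) - off (g y) := by
        unfold pos
        rw [cl_idx h2]
        ring
      rw [h4]
      push_cast
      exact Real.one_le_rpow (one_le_abs_nat h3) hq.le
    · rw [if_neg h2]
      have h3 : idx (g x) ≠ idx (g y) := fun h => h2 (idx_eq h)
      have h4 : (2 : ℝ) ^ (1 / q) ≤ |pos q (g x) - pos q (g y)| := by
        have h5 : pos q (g x) - pos q (g y)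
            = ((idx (g x) : ℝ) - idx (g y)) * RR q + ((off (g x) : ℝ) - off (g y)) := by
          unfold pos
          ring
        have h6 := one_le_abs_nat h3
        have h7 := abs_nat_sub_le (off_le (g x)) (off_le (g y))
        have h8 : RR q ≤ |((idx (g x) : ℝ) - idx (g y)) * RR q| := by
          rw [abs_mul, abs_of_pos (a := RR q) (by unfold RR; positivity)]
          have : (0 : ℝ) ≤ RR q := by unfold RR; positivity
          nlinarith
        have h9 : |((idx (g x) : ℝ) - idx (g y)) * RR q| - |(off (g x) : ℝ) - off (g y)|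
            ≤ |((idx (g x) : ℝ) - idx (g y)) * RR q + ((off (g x) : ℝ) - off (g y))| := by
          have := abs_sub_abs_le_abs_sub (((idx (g x) : ℝ) - idx (g y)) * RR q)
            (-((off (g x) : ℝ) - off (g y)))
          rwa [abs_neg, sub_neg_eq_add] at this
        rw [h5]
        unfold RR at h8 h9 ⊢
        linarith
      calc (((1 : ℤ) + 1 : ℤ) : ℝ) = ((2 : ℝ) ^ (1 / q)) ^ q := by
            rw [two_pow hq]; norm_num
        _ ≤ _ := Real.rpow_le_rpow hR.le h4 hq.le

lemma eight_pow {q : ℝ} (hq : 0 < q) (hq' : q ≤ 1 / 30) : (8 : ℝ) ^ q ≤ 1072 / 1000 := by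
  calc (8 : ℝ) ^ q ≤ 8 ^ ((1 : ℝ) / 30) := Real.rpow_le_rpow_of_exponent_le (by norm_num) hq'
    _ ≤ ((1072 / 1000 : ℝ) ^ (30 : ℝ)) ^ ((1 : ℝ) / 30) := by
      refine Real.rpow_le_rpow (by norm_num) ?_ (by norm_num)
      rw [show (30 : ℝ) = ((30 : ℕ) : ℝ) by norm_num, Real.rpow_natCast]
      norm_num
    _ = 1072 / 1000 := by
      rw [← Real.rpow_mul (by norm_num)]
      norm_num

/-- The upper bound for the costs between leaves. -/
lemma pos_upper {q : ℝ} (hq : 0 < q) (hq' : q ≤ 1 / 30) (x y : L) :
    |pos q (some x) - pos q (some y)| ^ q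
      ≤ if x.1 = y.1 then 1072 / 1000 else 2 * (1072 / 1000) := by
  have h8 := eight_pow hq hq'
  have hoff := abs_nat_sub_le (off_le (some x)) (off_le (some y))
  split_ifs with h
  · have h4 : pos q (some x) - pos q (some y) = (off (some x) : ℝ) - off (some y) := by
      unfold pos
      rw [cl_idx (a := some x) (b := some y) (by simp [cl, h])]
      ring
    rw [h4]
    calc |(off (some x) : ℝ) - off (some y)| ^ q ≤ 8 ^ q :=
          Real.rpow_le_rpow (abs_nonneg _) (by linarith) hq.le
      _ ≤ _ := h8
  · have h5 : pos q (some x) - pos q (some y)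
        = ((idx (some x) : ℝ) - idx (some y)) * RR q + ((off (some x) : ℝ) - off (some y)) := by
      unfold pos
      ring
    have h6 : |(idx (some x) : ℝ) - idx (some y)| ≤ 7 := by
      have h1 : (idx (some x) : ℝ) ≤ 7 := by
        have : idx (some x) ≤ 7 := by
          simp only [idx]
          have := x.1.2
          omega
        exact_mod_cast this
      have h2 : (idx (some y) : ℝ) ≤ 7 := by
        have : idx (some y) ≤ 7 := by
          simp only [idx]
          have := y.1.2
          omega
        exact_mod_cast this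
      have h3 : (0 : ℝ) ≤ idx (some x) := Nat.cast_nonneg _
      have h4 : (0 : ℝ) ≤ idx (some y) := Nat.cast_nonneg _
      rw [abs_le]
      constructor <;> linarith
    have hR : (0 : ℝ) ≤ RR q := by unfold RR; positivity
    have h30 : (2 : ℝ) ^ (30 : ℝ) ≤ 2 ^ (1 / q) := by
      refine Real.rpow_le_rpow_of_exponent_le (by norm_num) ?_
      rw [le_div_iff₀ hq]
      linarith
    have h30' : (24 : ℝ) ≤ 2 ^ (1 / q) := by
      refine le_trans ?_ h30
      rw [show (30 : ℝ) = ((30 : ℕ) : ℝ) by norm_num, Real.rpow_natCast]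
      norm_num
    have h7 : |pos q (some x) - pos q (some y)| ≤ 8 * 2 ^ (1 / q) := by
      rw [h5]
      refine (abs_add_le _ _).trans ?_
      rw [abs_mul, abs_of_nonneg hR]
      have : |(idx (some x) : ℝ) - idx (some y)| * RR q ≤ 7 * RR q := by gcongr
      unfold RR at this ⊢
      linarith
    calc |pos q (some x) - pos q (some y)| ^ q ≤ (8 * 2 ^ (1 / q)) ^ q :=
          Real.rpow_le_rpow (abs_nonneg _) h7 hq.le
      _ = 8 ^ q * 2 := by
          rw [Real.mul_rpow (by norm_num) (by positivity), two_pow hq]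
      _ ≤ 2 * (1072 / 1000) := by linarith

end Pool.Agent.V11322.PC
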